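import Mathlib

/-!
Convex links, unlinks, Brunnian links, round spheres and ambient isotopy.
All definitions are stated in a real normed space `E`; they are used for `E = ℝ^n` (Euclidean).
A link is a family `F : ι → Set E` of components, `k i` is the dimension of the component `F i`.
-/

set_option autoImplicit false

namespace Pool.Agent.MP_5230e1_gt

variable {E : Type*} [NormedAddCommGroup E] [NormedSpace ℝ E] {ι : Type*}

/-- `K` is a convex knot of dimension `k`: the (relative) boundary of a compact convex set of
dimension `k + 1`. -/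
def IsConvexKnot (k : ℕ) (K : Set E) : Prop :=
  ∃ C : Set E, IsCompact C ∧ Convex ℝ C ∧ Module.finrank ℝ (vectorSpan ℝ C) = k + 1 ∧
    K = intrinsicFrontier ℝ C

/-- `K` is a round `k`-sphere of radius `r`. -/
def IsRoundSphere (k : ℕ) (r : ℝ) (K : Set E) : Prop :=
  0 < r ∧ ∃ (A : AffineSubspace ℝ E) (c : E), Module.finrank ℝ A.direction = k + 1 ∧ c ∈ A ∧
    K = {x | x ∈ A ∧ dist x c = r}

/-- `K` is an ellipsoid of dimension `k`: the image of a round `k`-sphere under an invertible
affine map. -/
def IsEllipsoid (k : ℕ) (K : Set E) : Prop :=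
  ∃ (r : ℝ) (S : Set E) (A : E ≃ᵃ[ℝ] E), IsRoundSphere k r S ∧ K = A '' S

/-- The sublink formed by the components with index in `S` is an unlink: each of its components
`F i` bounds an embedded ball of dimension `k i + 1` disjoint from the other components. -/
def IsUnlink (k : ι → ℕ) (F : ι → Set E) (S : Set ι) : Prop :=
  ∀ i ∈ S, ∃ e : Metric.closedBall (0 : EuclideanSpace ℝ (Fin (k i + 1))) 1 → E,
    Continuous e ∧ Function.Injective e ∧ e '' {u | ‖u.1‖ = 1} = F i ∧
      ∀ j ∈ S, j ≠ i → Disjoint (Set.range e) (F j)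

/-- A link with at least three components which is not an unlink, while all its proper sublinks
are unlinks. -/
def IsBrunnian {m : ℕ} (k : Fin m → ℕ) (F : Fin m → Set E) : Prop :=
  3 ≤ m ∧ ¬ IsUnlink k F Set.univ ∧ ∀ S : Set (Fin m), S ≠ Set.univ → IsUnlink k F S

/-- There is an ambient isotopy of `E` carrying each component `F i` onto `F' i`. -/
def AmbientIsotopic (F F' : ι → Set E) : Prop :=
  ∃ H : unitInterval → E ≃ₜ E,
    Continuous (fun p : unitInterval × E => H p.1 p.2) ∧
    Continuous (fun p : unitInterval × E => (H p.1).symm p.2) ∧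
    H 0 = Homeomorph.refl E ∧ ∀ i, H 1 '' F i = F' i

/-- All components but one are round spheres, and the remaining one lies within Hausdorff distance
`ε r` of a round sphere of the same dimension and of radius `r`. -/
def IsNearlyRound (ε : ℝ) (k : ι → ℕ) (F : ι → Set E) : Prop :=
  ∃ i₀, (∀ i, i ≠ i₀ → ∃ r, IsRoundSphere (k i) r (F i)) ∧
    ∃ (r : ℝ) (K : Set E), IsRoundSphere (k i₀) r K ∧
      Metric.hausdorffEDist (F i₀) K ≤ ENNReal.ofReal (ε * r)

end Pool.Agent.MP_5230e1_gt
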